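import Pool.Agent.W629.Q4.CTab
import Pool.Agent.W629.Q4.CS1

/-! Kernel checks (generated). The import of the previous part only serialises the build. -/

set_option autoImplicit false
set_option maxRecDepth 100000

namespace Pool.Agent.W629.Q4.C
open Pool.Agent.H449R2.Fl

theorem s8 : nall 89 (fun k => ckS hasK4 T q B (Nat.add 712 k)) = true := by decide +kernel
theorem s9 : nall 89 (fun k => ckS hasK4 T q B (Nat.add 801 k)) = true := by decide +kernel
theorem s10 : nall 89 (fun k => ckS hasK4 T q B (Nat.add 890 k)) = true := by decide +kernel
theorem s11 : nall 89 (fun k => ckS hasK4 T q B (Nat.add 979 k)) = true := by decide +kernel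

end Pool.Agent.W629.Q4.C
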