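import Pool.Agent.W629.Q4.Quads

/-! Counting lemmas for the statistics of the four-element sets. -/

set_option autoImplicit false
open Finset
open scoped Classical

namespace Pool.Agent.W629.Q4
open Pool.Agent.H449R2.Fl

variable {n : ℕ} {H : Finset (Finset (Fin n))}

/-- the four-element sets -/
abbrev P4 (n : ℕ) : Finset (Finset (Fin n)) := (univ : Finset (Fin n)).powersetCard 4

/-- the number of four-element sets containing exactly `k` edges -/
def N4 (H : Finset (Finset (Fin n))) (k : ℕ) : ℕ := ((P4 n).filter fun S => inside H S = k).card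

theorem inside_lt (h3 : ∀ s ∈ H, s.card = 3)
    (hK : ∀ S : Finset (Fin n), S.card = 4 → ∃ s ⊆ S, s.card = 3 ∧ s ∉ H)
    (S : Finset (Fin n)) (hS : S.card = 4) : inside H S < 4 := by
  obtain ⟨s, hs, hs3, hsH⟩ := hK S hS
  have h1 : (H.filter fun t => t ⊆ S) ⊂ S.powersetCard 3 := by
    rw [Finset.ssubset_iff_of_subset]
    · exact ⟨s, mem_powersetCard.mpr ⟨hs, hs3⟩, fun h => hsH (mem_filter.mp h).1⟩
    · intro t ht
      rw [mem_filter] at ht
      exact mem_powersetCard.mpr ⟨ht.2, h3 t ht.1⟩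
  have h2 := Finset.card_lt_card h1
  rw [card_powersetCard, hS] at h2
  exact h2

/-- a sum over the four-element sets of a function of the number of edges -/
theorem sum_inside (h3 : ∀ s ∈ H, s.card = 3)
    (hK : ∀ S : Finset (Fin n), S.card = 4 → ∃ s ⊆ S, s.card = 3 ∧ s ∉ H) (G : ℕ → ℕ) :
    ∑ S ∈ P4 n, G (inside H S) =
      G 0 * N4 H 0 + G 1 * N4 H 1 + G 2 * N4 H 2 + G 3 * N4 H 3 := by
  have hmap : ∀ S ∈ P4 n, inside H S ∈ Finset.range 4 := fun S hS =>
    mem_range.mpr (inside_lt h3 hK S (mem_powersetCard.mp hS).2)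
  rw [← Finset.sum_fiberwise_of_maps_to hmap]
  have h1 : ∀ k, ∑ S ∈ (P4 n).filter (fun S => inside H S = k), G (inside H S) = G k * N4 H k := by
    intro k
    have : ∑ S ∈ (P4 n).filter (fun S => inside H S = k), G (inside H S) =
        ∑ S ∈ (P4 n).filter (fun S => inside H S = k), G k :=
      sum_congr rfl fun S hS => by rw [(mem_filter.mp hS).2]
    rw [this, sum_const, smul_eq_mul]
    unfold N4
    ring
  simp only [h1, sum_range_succ, range_zero, sum_empty]
  ring

theorem sup4 (s : Finset (Fin n)) (hs : s.card = 3) :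
    ((P4 n).filter fun S => s ⊆ S).card = n - 3 := by
  have h1 : ((P4 n).filter fun S => s ⊆ S) = (univ \ s).image fun v => insert v s := by
    ext S
    simp only [mem_filter, mem_powersetCard, mem_image, mem_sdiff, mem_univ, true_and]
    constructor
    · rintro ⟨⟨_, h4⟩, hsS⟩
      have h5 : (S \ s).card = 1 := by rw [card_sdiff_of_subset hsS, h4, hs]
      obtain ⟨v, hv⟩ := card_eq_one.mp h5
      have hv' : v ∈ S \ s := by rw [hv]; exact mem_singleton_self v
      rw [mem_sdiff] at hv'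
      refine ⟨v, hv'.2, ?_⟩
      apply Finset.eq_of_subset_of_card_le
      · intro z hz
        rw [mem_insert] at hz
        rcases hz with rfl | hz
        · exact hv'.1
        · exact hsS hz
      · rw [card_insert_of_notMem hv'.2, hs, h4]
    · rintro ⟨v, hv, rfl⟩
      exact ⟨⟨subset_univ _, by rw [card_insert_of_notMem hv, hs]⟩, subset_insert v s⟩
  rw [h1, card_image_of_injOn, card_sdiff_of_subset (subset_univ _), card_univ, Fintype.card_fin, hs]
  intro v hv w hw h
  have hv' : v ∉ s := (mem_sdiff.mp (mem_coe.mp hv)).2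
  have h2 : v ∈ insert w s := by
    have : v ∈ insert v s := mem_insert_self v s
    simpa [h] using this
  rcases mem_insert.mp h2 with h3 | h3
  · exact h3
  · exact absurd h3 hv'

/-- double counting -/
theorem sum_edges (h3 : ∀ s ∈ H, s.card = 3) : ∑ S ∈ P4 n, inside H S = (n - 3) * H.card := by
  have h1 : ∀ S, inside H S = ∑ s ∈ H, if s ⊆ S then 1 else 0 := fun S => by
    unfold inside
    rw [card_filter]
  simp only [h1]
  rw [sum_comm]
  have h2 : ∀ s ∈ H, ∑ S ∈ P4 n, (if s ⊆ S then 1 else 0) = n - 3 := fun s hs => by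
    rw [← card_filter]
    exact sup4 s (h3 s hs)
  rw [sum_congr rfl h2, sum_const, smul_eq_mul, mul_comm]

/-- the bits of a code -/
def pop (s : ℕ) : ℕ := s % 2 + s / 2 % 2 + s / 4 % 2 + s / 8 % 2

theorem pop_sg {V : Type} {e : V → V → V → ℕ} (he : Pat e) (a b c d : V) :
    pop (sg e a b c d) = ed4 e a b c d := by
  have l0 := he.le1 a b c
  have l1 := he.le1 a b d
  have l2 := he.le1 a c d
  have l3 := he.le1 b c d
  simp only [pop, sg, ed4, Nat.add_eq, Nat.mul_eq]
  omega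

/-- from a certificate to the statistics of the four-element sets -/
theorem quads_bound (h3 : ∀ s ∈ H, s.card = 3)
    (hK : ∀ S : Finset (Fin n), S.card = 4 → ∃ s ⊆ S, s.card = 3 ∧ s ∉ H)
    (g G : ℕ → ℕ) (Sp B0 : ℕ) (hg : ∀ s < 16, s ≠ 15 → g s = Sp * G (pop s))
    (hb : 720 * ∑ a : Fin n, ∑ b : Fin n, ∑ c : Fin n, ∑ d : Fin n, ∑ _x : Fin n, ∑ _y : Fin n,
      (g (sg (ind H) a b c d) : ℤ) ≤ B0 * (Fintype.card (Fin n) : ℤ) ^ 6) :
    720 * Sp * (24 * (G 0 * N4 H 0 + G 1 * N4 H 1 + G 2 * N4 H 2 + G 3 * N4 H 3)) ≤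
      B0 * n ^ 4 := by
  have h1 := sets_le_tuples h3 G
  rw [sum_inside h3 hK G] at h1
  have h2 : ∀ a b c d : Fin n, g (sg (ind H) a b c d) = Sp * G (ed4 (ind H) a b c d) := by
    intro a b c d
    rw [hg _ (sg_lt (ind_pat h3) a b c d) (K4free_sg h3 hK a b c d), pop_sg (ind_pat h3)]
  rw [Fintype.card_fin] at hb
  have h4 : ∑ a : Fin n, ∑ b : Fin n, ∑ c : Fin n, ∑ d : Fin n, ∑ _x : Fin n, ∑ _y : Fin n,
      (g (sg (ind H) a b c d) : ℤ) =
      (Sp : ℤ) * (n : ℤ) ^ 2 * ((∑ a, ∑ b, ∑ c, ∑ d, G (ed4 (ind H) a b c d) : ℕ) : ℤ) := by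
    simp only [h2, sum_const, card_univ, Fintype.card_fin, nsmul_eq_mul]
    push_cast
    simp only [mul_sum]
    refine sum_congr rfl fun a _ => sum_congr rfl fun b _ => sum_congr rfl fun c _ =>
      sum_congr rfl fun d _ => ?_
    ring
  rw [h4] at hb
  rcases Nat.eq_zero_or_pos n with h0 | hn
  · subst h0
    have h5 : ∀ k, N4 H k = 0 := by
      intro k
      unfold N4
      have : P4 0 = ∅ := by decide
      rw [this]; rfl
    simp [h5]
  · set Q := ∑ a, ∑ b, ∑ c, ∑ d, G (ed4 (ind H) a b c d) with hQ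
    have hn' : (0 : ℤ) < (n : ℤ) ^ 2 := by positivity
    have h6 : 720 * (Sp : ℤ) * (Q : ℤ) ≤ B0 * (n : ℤ) ^ 4 := by
      have h7 : (n : ℤ) ^ 2 * (720 * (Sp : ℤ) * (Q : ℤ)) ≤ (n : ℤ) ^ 2 * (B0 * (n : ℤ) ^ 4) := by
        calc (n : ℤ) ^ 2 * (720 * (Sp : ℤ) * (Q : ℤ))
            = 720 * ((Sp : ℤ) * (n : ℤ) ^ 2 * (Q : ℤ)) := by ring
          _ ≤ B0 * (n : ℤ) ^ 6 := hb
          _ = _ := by ring
      exact le_of_mul_le_mul_left h7 hn'
    have h8 : 720 * Sp * Q ≤ B0 * n ^ 4 := by exact_mod_cast h6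
    exact (Nat.mul_le_mul_left _ h1).trans h8

end Pool.Agent.W629.Q4
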