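import Pool.Agent.W629.Q4.Count

/-! Real forms of the counting lemmas, complements and codegrees. -/

set_option autoImplicit false
open Finset
open scoped Classical

namespace Pool.Agent.W629.Q4
open Pool.Agent.H449R2.Fl

variable {n : ℕ} {H : Finset (Finset (Fin n))}

theorem card_zero (h3 : ∀ s ∈ H, s.card = 3) (hn : n < 3) : H.card = 0 := by
  rw [card_eq_zero, eq_empty_iff_forall_notMem]
  intro s hs
  have h1 := card_le_univ s
  rw [h3 s hs, Fintype.card_fin] at h1
  omega

theorem real_edges (h3 : ∀ s ∈ H, s.card = 3)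
    (hK : ∀ S : Finset (Fin n), S.card = 4 → ∃ s ⊆ S, s.card = 3 ∧ s ∉ H) :
    (N4 H 1 : ℝ) + 2 * N4 H 2 + 3 * N4 H 3 = ((n : ℝ) - 3) * H.card := by
  have h1 := sum_inside h3 hK (fun k => k)
  rw [sum_edges h3] at h1
  rcases Nat.lt_or_ge n 3 with hn | hn
  · have h2 := card_zero h3 hn
    rw [h2] at h1 ⊢
    have h5 : (N4 H 1 : ℝ) + 2 * N4 H 2 + 3 * N4 H 3 =
      ((0 * N4 H 0 + 1 * N4 H 1 + 2 * N4 H 2 + 3 * N4 H 3 : ℕ) : ℝ) := by push_cast; ring
    rw [h5, ← h1]; simp
  · have h2 : ((n - 3 : ℕ) : ℝ) = (n : ℝ) - 3 := by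
      rw [Nat.cast_sub hn]; norm_num
    rw [← h2]
    have h3 : (((n - 3) * H.card : ℕ) : ℝ) =
      ((0 * N4 H 0 + 1 * N4 H 1 + 2 * N4 H 2 + 3 * N4 H 3 : ℕ) : ℝ) := by rw [h1]
    push_cast at h3
    linarith

theorem choose3 (n : ℕ) : 6 * (n.choose 3 : ℝ) = (n : ℝ) ^ 3 - 3 * n ^ 2 + 2 * n := by
  induction n with
  | zero => norm_num [Nat.choose]
  | succ n ih =>
    have h2 : ((n + 1).choose 3 : ℝ) = (n.choose 2 : ℝ) + (n.choose 3 : ℝ) := by
      exact_mod_cast Nat.choose_succ_succ n 2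
    rw [h2, Nat.cast_choose_two]
    push_cast
    linarith

theorem choose4 (n : ℕ) : 24 * (n.choose 4 : ℝ) = (n : ℝ) ^ 4 - 6 * n ^ 3 + 11 * n ^ 2 - 6 * n := by
  induction n with
  | zero => norm_num [Nat.choose]
  | succ n ih =>
    have h2 : ((n + 1).choose 4 : ℝ) = (n.choose 3 : ℝ) + (n.choose 4 : ℝ) := by
      exact_mod_cast Nat.choose_succ_succ n 3
    have h3 := choose3 n
    rw [h2]
    push_cast
    linarith

theorem real_total (h3 : ∀ s ∈ H, s.card = 3)
    (hK : ∀ S : Finset (Fin n), S.card = 4 → ∃ s ⊆ S, s.card = 3 ∧ s ∉ H) :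
    24 * ((N4 H 0 : ℝ) + N4 H 1 + N4 H 2 + N4 H 3) =
      (n : ℝ) ^ 4 - 6 * n ^ 3 + 11 * n ^ 2 - 6 * n := by
  have h1 := sum_inside h3 hK (fun _ => 1)
  rw [sum_const, smul_eq_mul, mul_one] at h1
  have h2 : (P4 n).card = n.choose 4 := by
    rw [card_powersetCard, card_univ, Fintype.card_fin]
  rw [h2] at h1
  rw [← choose4 n, h1]
  push_cast
  ring

/-- The number of edges containing the pair `p`. -/
def cod (H : Finset (Finset (Fin n))) (p : Finset (Fin n)) : ℕ := (H.filter fun s => p ⊆ s).card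

/-- the complement -/
def compl3 (G : Finset (Finset (Fin n))) : Finset (Finset (Fin n)) :=
  (univ : Finset (Fin n)).powersetCard 3 \ G

theorem compl3_card3 (G : Finset (Finset (Fin n))) : ∀ s ∈ compl3 G, s.card = 3 := by
  intro s hs
  exact (mem_powersetCard.mp (mem_sdiff.mp hs).1).2

theorem compl3_free {G : Finset (Finset (Fin n))}
    (hG : ∀ S : Finset (Fin n), S.card = 4 → ∃ s ∈ G, s ⊆ S) (hG3 : ∀ s ∈ G, s.card = 3) :
    ∀ S : Finset (Fin n), S.card = 4 → ∃ s ⊆ S, s.card = 3 ∧ s ∉ compl3 G := by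
  intro S hS
  obtain ⟨s, hs, hsS⟩ := hG S hS
  exact ⟨s, hsS, hG3 s hs, fun h => (mem_sdiff.mp h).2 hs⟩

theorem compl3_card {G : Finset (Finset (Fin n))} (hG3 : ∀ s ∈ G, s.card = 3) :
    (compl3 G).card + G.card = n.choose 3 := by
  have h1 : G ⊆ (univ : Finset (Fin n)).powersetCard 3 := fun s hs =>
    mem_powersetCard.mpr ⟨subset_univ _, hG3 s hs⟩
  unfold compl3
  rw [card_sdiff_add_card_eq_card h1, card_powersetCard, card_univ, Fintype.card_fin]

theorem compl3_filter {G : Finset (Finset (Fin n))} (hG3 : ∀ s ∈ G, s.card = 3)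
    (p : Finset (Fin n) → Prop) [DecidablePred p] :
    ((compl3 G).filter p).card + (G.filter p).card =
      (((univ : Finset (Fin n)).powersetCard 3).filter p).card := by
  have h1 : G.filter p ⊆ ((univ : Finset (Fin n)).powersetCard 3).filter p := fun s hs =>
    mem_filter.mpr ⟨mem_powersetCard.mpr ⟨subset_univ _, hG3 s (mem_filter.mp hs).1⟩,
      (mem_filter.mp hs).2⟩
  have h2 : (compl3 G).filter p =
      (((univ : Finset (Fin n)).powersetCard 3).filter p) \ (G.filter p) := by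
    ext s
    simp only [compl3, mem_filter, mem_sdiff]
    tauto
  rw [h2, card_sdiff_add_card_eq_card h1]

theorem compl3_inside {G : Finset (Finset (Fin n))} (hG3 : ∀ s ∈ G, s.card = 3)
    (S : Finset (Fin n)) (hS : S.card = 4) : inside (compl3 G) S + inside G S = 4 := by
  unfold inside
  rw [compl3_filter hG3]
  have h1 : (((univ : Finset (Fin n)).powersetCard 3).filter fun s => s ⊆ S) =
      S.powersetCard 3 := by
    ext s
    simp only [mem_filter, mem_powersetCard]
    constructor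
    · rintro ⟨⟨_, h⟩, h'⟩; exact ⟨h', h⟩
    · rintro ⟨h, h'⟩; exact ⟨⟨subset_univ _, h'⟩, h⟩
  rw [h1, card_powersetCard, hS]
  rfl

theorem compl3_N4 {G : Finset (Finset (Fin n))} (hG3 : ∀ s ∈ G, s.card = 3) (j k : ℕ)
    (hjk : j + k = 4) : N4 (compl3 G) k = N4 G j := by
  unfold N4
  congr 1
  refine Finset.filter_congr fun S hS => ?_
  have h1 := compl3_inside hG3 S (mem_powersetCard.mp hS).2
  omega

theorem sup2 (p : Finset (Fin n)) (hp : p.card = 2) :
    (((univ : Finset (Fin n)).powersetCard 3).filter fun S => p ⊆ S).card = n - 2 := by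
  have h1 : (((univ : Finset (Fin n)).powersetCard 3).filter fun S => p ⊆ S) =
      (univ \ p).image fun v => insert v p := by
    ext S
    simp only [mem_filter, mem_powersetCard, mem_image, mem_sdiff, mem_univ, true_and]
    constructor
    · rintro ⟨⟨_, h4⟩, hsS⟩
      have h5 : (S \ p).card = 1 := by rw [card_sdiff_of_subset hsS, h4, hp]
      obtain ⟨v, hv⟩ := card_eq_one.mp h5
      have hv' : v ∈ S \ p := by rw [hv]; exact mem_singleton_self v
      rw [mem_sdiff] at hv'
      refine ⟨v, hv'.2, ?_⟩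
      apply Finset.eq_of_subset_of_card_le
      · intro z hz
        rw [mem_insert] at hz
        rcases hz with rfl | hz
        · exact hv'.1
        · exact hsS hz
      · rw [card_insert_of_notMem hv'.2, hp, h4]
    · rintro ⟨v, hv, rfl⟩
      exact ⟨⟨subset_univ _, by rw [card_insert_of_notMem hv, hp]⟩, subset_insert v p⟩
  rw [h1, card_image_of_injOn, card_sdiff_of_subset (subset_univ _), card_univ, Fintype.card_fin, hp]
  intro v hv w hw h
  have hv' : v ∉ p := (mem_sdiff.mp (mem_coe.mp hv)).2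
  have h2 : v ∈ insert w p := by
    have : v ∈ insert v p := mem_insert_self v p
    simpa [h] using this
  rcases mem_insert.mp h2 with h3 | h3
  · exact h3
  · exact absurd h3 hv'

theorem compl3_cod {G : Finset (Finset (Fin n))} (hG3 : ∀ s ∈ G, s.card = 3)
    (p : Finset (Fin n)) (hp : p.card = 2) : cod (compl3 G) p + cod G p = n - 2 := by
  unfold cod
  rw [compl3_filter hG3, sup2 p hp]

theorem sum_cod (h3 : ∀ s ∈ H, s.card = 3) :
    ∑ p ∈ (univ : Finset (Fin n)).powersetCard 2, cod H p = 3 * H.card := by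
  have h1 : ∀ p, cod H p = ∑ s ∈ H, if p ⊆ s then 1 else 0 := fun p => by
    unfold cod
    rw [card_filter]
  simp only [h1]
  rw [sum_comm]
  have h2 : ∀ s ∈ H, ∑ p ∈ (univ : Finset (Fin n)).powersetCard 2, (if p ⊆ s then 1 else 0) = 3 := by
    intro s hs
    rw [← card_filter]
    have h4 : (((univ : Finset (Fin n)).powersetCard 2).filter fun p => p ⊆ s) =
        s.powersetCard 2 := by
      ext t
      simp only [mem_filter, mem_powersetCard]
      constructor
      · rintro ⟨⟨_, h⟩, h'⟩; exact ⟨h', h⟩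
      · rintro ⟨h, h'⟩; exact ⟨⟨subset_univ _, h'⟩, h⟩
    rw [h4, card_powersetCard, h3 s hs]
    rfl
  rw [sum_congr rfl h2, sum_const, smul_eq_mul, mul_comm]

end Pool.Agent.W629.Q4
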