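import Pool.Agent.W629.Q4.IneqAC
import Pool.Agent.W629.Q4.P0
import Pool.Agent.W629.Q4.P1
import Pool.Agent.W629.Q4.P2
import Pool.Agent.W629.Q4.P3
import Pool.Agent.W629.Q4.Y

/-! The inequalities given by the certificates. -/

set_option autoImplicit false
open Finset
open scoped Classical

namespace Pool.Agent.W629.Q4
open Pool.Agent.H449R2.Fl

variable {n : ℕ} {H : Finset (Finset (Fin n))}

theorem ineqP0 (h3 : ∀ s ∈ H, s.card = 3)
    (hK : ∀ S : Finset (Fin n), S.card = 4 → ∃ s ⊆ S, s.card = 3 ∧ s ∉ H) :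
    24 * (131 * (N4 H 1 : ℝ) + 162 * N4 H 2 + 193 * N4 H 3) ≤
      1569597 / 10000 * (n : ℝ) ^ 4 := by
  have h := quads_bound h3 hK P0.g (tb 0 131 162 193) 68719476736 7766052326768112
    (by decide +kernel) (by exact_mod_cast P0.bound (ind_pat h3) (hasK4_false (K4free_sg h3 hK)))
  have h' : ((720 * 68719476736 * (24 * (0 * N4 H 0 + 131 * N4 H 1 + 162 * N4 H 2 +
      193 * N4 H 3)) : ℕ) : ℝ) ≤ ((7766052326768112 * n ^ 4 : ℕ) : ℝ) := by
    exact_mod_cast h
  push_cast at h'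
  have h5 : (0 : ℝ) ≤ (n : ℝ) ^ 4 := by positivity
  nlinarith

theorem ineqP1 (h3 : ∀ s ∈ H, s.card = 3)
    (hK : ∀ S : Finset (Fin n), S.card = 4 → ∃ s ⊆ S, s.card = 3 ∧ s ∉ H) :
    24 * (790 * (N4 H 1 : ℝ) + 780 * N4 H 2 + 1170 * N4 H 3) ≤
      8959231 / 10000 * (n : ℝ) ^ 4 := by
  have h := quads_bound h3 hK P1.g (tb 0 790 780 1170) 68719476736 44328500994967860
    (by decide +kernel) (by exact_mod_cast P1.bound (ind_pat h3) (hasK4_false (K4free_sg h3 hK)))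
  have h' : ((720 * 68719476736 * (24 * (0 * N4 H 0 + 790 * N4 H 1 + 780 * N4 H 2 +
      1170 * N4 H 3)) : ℕ) : ℝ) ≤ ((44328500994967860 * n ^ 4 : ℕ) : ℝ) := by
    exact_mod_cast h
  push_cast at h'
  have h5 : (0 : ℝ) ≤ (n : ℝ) ^ 4 := by positivity
  nlinarith

theorem ineqP2 (h3 : ∀ s ∈ H, s.card = 3)
    (hK : ∀ S : Finset (Fin n), S.card = 4 → ∃ s ⊆ S, s.card = 3 ∧ s ∉ H) :
    24 * (343 * (N4 H 1 : ℝ) + 1086 * N4 H 2 + 1029 * N4 H 3) ≤
      2196767 / 2500 * (n : ℝ) ^ 4 := by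
  have h := quads_bound h3 hK P2.g (tb 0 343 1086 1029) 68719476736 43476671093553360
    (by decide +kernel) (by exact_mod_cast P2.bound (ind_pat h3) (hasK4_false (K4free_sg h3 hK)))
  have h' : ((720 * 68719476736 * (24 * (0 * N4 H 0 + 343 * N4 H 1 + 1086 * N4 H 2 +
      1029 * N4 H 3)) : ℕ) : ℝ) ≤ ((43476671093553360 * n ^ 4 : ℕ) : ℝ) := by
    exact_mod_cast h
  push_cast at h'
  have h5 : (0 : ℝ) ≤ (n : ℝ) ^ 4 := by positivity
  nlinarith

theorem ineqP3 (h3 : ∀ s ∈ H, s.card = 3)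
    (hK : ∀ S : Finset (Fin n), S.card = 4 → ∃ s ⊆ S, s.card = 3 ∧ s ∉ H) :
    24 * (93 * (N4 H 1 : ℝ) + 186 * N4 H 2 + 179 * N4 H 3) ≤
      19231 / 125 * (n : ℝ) ^ 4 := by
  have h := quads_bound h3 hK P3.g (tb 0 93 186 179) 68719476736 7612094195557920
    (by decide +kernel) (by exact_mod_cast P3.bound (ind_pat h3) (hasK4_false (K4free_sg h3 hK)))
  have h' : ((720 * 68719476736 * (24 * (0 * N4 H 0 + 93 * N4 H 1 + 186 * N4 H 2 +
      179 * N4 H 3)) : ℕ) : ℝ) ≤ ((7612094195557920 * n ^ 4 : ℕ) : ℝ) := by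
    exact_mod_cast h
  push_cast at h'
  have h5 : (0 : ℝ) ≤ (n : ℝ) ^ 4 := by positivity
  nlinarith

theorem sum_ind_eq (h3 : ∀ s ∈ H, s.card = 3) {a b : Fin n} (hab : a ≠ b) :
    ∑ c, ind H a b c = cod H {a, b} := by
  unfold ind cod
  rw [← card_filter]
  refine Finset.card_bij (fun c _ => ({a, b, c} : Finset (Fin n))) ?_ ?_ ?_
  · intro c hc
    rw [mem_filter] at hc ⊢
    refine ⟨hc.2, ?_⟩
    intro z hz
    simp only [mem_insert, mem_singleton] at hz ⊢
    tauto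
  · intro c hc c' hc' h
    rw [mem_filter] at hc hc'
    have hd := ind_distinct h3 (a := a) (b := b) (c := c) (by unfold ind; rw [if_pos hc.2])
    have hm : c ∈ ({a, b, c'} : Finset (Fin n)) := by rw [← h]; simp
    simp only [mem_insert, mem_singleton] at hm
    rcases hm with hm | hm | hm
    · exact absurd hm hd.2.1.symm
    · exact absurd hm hd.2.2.symm
    · exact hm
  · intro s hs
    rw [mem_filter] at hs
    obtain ⟨hs, hsub⟩ := hs
    have h1 : (s \ {a, b}).card = 1 := by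
      rw [card_sdiff_of_subset hsub, h3 s hs, card_pair hab]
    obtain ⟨c, hc⟩ := Finset.card_eq_one.mp h1
    have h2 : ({a, b, c} : Finset (Fin n)) = s := by
      have h4 : s = {a, b} ∪ (s \ {a, b}) := (union_sdiff_of_subset hsub).symm
      rw [h4, hc]
      ext z
      simp only [mem_insert, mem_singleton, mem_union]
      tauto
    exact ⟨c, mem_filter.mpr ⟨mem_univ _, h2 ▸ hs⟩, h2⟩

theorem sum_pairs (F : Finset (Fin n) → ℕ) :
    ∑ p ∈ (univ : Finset (Fin n)).offDiag, F {p.1, p.2} =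
      2 * ∑ p ∈ (univ : Finset (Fin n)).powersetCard 2, F p := by
  rw [← Finset.sum_fiberwise_of_maps_to (t := (univ : Finset (Fin n)).powersetCard 2)
    (g := fun p : Fin n × Fin n => ({p.1, p.2} : Finset (Fin n)))]
  · rw [mul_sum]
    refine sum_congr rfl fun y hy => ?_
    rw [mem_powersetCard] at hy
    obtain ⟨u, v, huv, rfl⟩ := Finset.card_eq_two.mp hy.2
    have h1 : ((univ : Finset (Fin n)).offDiag.filter
        fun p : Fin n × Fin n => ({p.1, p.2} : Finset (Fin n)) = {u, v}) = {(u, v), (v, u)} := by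
      ext ⟨a, b⟩
      simp only [mem_filter, mem_offDiag, mem_univ, true_and, mem_insert, mem_singleton,
        Prod.mk.injEq]
      constructor
      · rintro ⟨hab, h⟩
        have ha : a ∈ ({u, v} : Finset (Fin n)) := by rw [← h]; simp
        have hb : b ∈ ({u, v} : Finset (Fin n)) := by rw [← h]; simp
        simp only [mem_insert, mem_singleton] at ha hb
        rcases ha with rfl | rfl <;> rcases hb with rfl | rfl <;> simp_all
      · rintro (⟨rfl, rfl⟩ | ⟨rfl, rfl⟩)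
        · exact ⟨huv, rfl⟩
        · exact ⟨huv.symm, pair_comm _ _⟩
    rw [h1, sum_pair (by simp [huv])]
    rw [pair_comm v u]
    ring
  · intro p hp
    rw [mem_offDiag] at hp
    rw [mem_powersetCard]
    exact ⟨subset_univ _, card_pair hp.2.2⟩

theorem sum_cod_sq (h3 : ∀ s ∈ H, s.card = 3) :
    ∑ a, ∑ b, (∑ c, ind H a b c) ^ 2 =
      2 * ∑ p ∈ (univ : Finset (Fin n)).powersetCard 2, cod H p ^ 2 := by
  rw [← sum_pairs fun p => cod H p ^ 2]
  rw [← Fintype.sum_prod_type' (f := fun a b => (∑ c, ind H a b c) ^ 2)]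
  rw [← Finset.sum_subset (Finset.subset_univ (univ : Finset (Fin n)).offDiag)]
  · refine sum_congr rfl fun p hp => ?_
    rw [mem_offDiag] at hp
    rw [sum_ind_eq h3 hp.2.2]
  · rintro ⟨a, b⟩ _ hp
    rw [mem_offDiag] at hp
    have hab : a = b := by
      by_contra h
      exact hp ⟨mem_univ _, mem_univ _, h⟩
    subst hab
    have : ∀ c, ind H a a c = 0 := fun c => (ind_pat h3).dg a c
    simp [this]

theorem gY_eq {V : Type} {e : V → V → V → ℕ} (he : Pat e) (a b c d : V) :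
    (Y.g (sg e a b c d) : ℤ) = 68719476736 * (1032 * (e a b c : ℤ) - 750 * ((e a b c : ℤ) * (e a b d : ℤ))) := by
  have l0 := he.le1 a b c
  have l1 := he.le1 a b d
  have l2 := he.le1 a c d
  have l3 := he.le1 b c d
  unfold sg
  interval_cases h0 : e a b c <;> interval_cases h1 : e a b d <;>
    interval_cases h2 : e a c d <;> interval_cases h3 : e b c d <;> rfl

theorem ineqY (h3 : ∀ s ∈ H, s.card = 3)
    (hK : ∀ S : Finset (Fin n), S.card = 4 → ∃ s ⊆ S, s.card = 3 ∧ s ∉ H) (hn : 0 < n) :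
    6192 * ((n : ℝ) * H.card) ≤ 3393183 / 10000 * (n : ℝ) ^ 4 +
      1500 * ∑ p ∈ (univ : Finset (Fin n)).powersetCard 2, (cod H p : ℝ) ^ 2 := by
  have hb := Y.bound (ind_pat h3) (hasK4_false (K4free_sg h3 hK))
  have h1 : ∑ a : Fin n, ∑ b : Fin n, ∑ c : Fin n, ∑ d : Fin n, ∑ _x : Fin n, ∑ _y : Fin n,
      (Y.g (sg (ind H) a b c d) : ℤ) =
      68719476736 * ((n : ℤ) ^ 2 * (1032 * ((n : ℤ) * (6 * (H.card : ℤ))) -
        750 * (2 * ((∑ p ∈ (univ : Finset (Fin n)).powersetCard 2, cod H p ^ 2 : ℕ) : ℤ)))) := by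
    have e1 : ∑ a : Fin n, ∑ b : Fin n, ∑ c : Fin n, (ind H a b c : ℤ) = 6 * (H.card : ℤ) := by
      exact_mod_cast sum_ind h3
    have e2 : ∑ a : Fin n, ∑ b : Fin n, ∑ c : Fin n, ∑ d : Fin n,
        ((ind H a b c : ℤ) * (ind H a b d : ℤ)) =
        2 * ((∑ p ∈ (univ : Finset (Fin n)).powersetCard 2, cod H p ^ 2 : ℕ) : ℤ) := by
      have := sum_cod_sq h3
      have e3 : ∀ a b : Fin n, ∑ c : Fin n, ∑ d : Fin n, ((ind H a b c : ℤ) * (ind H a b d : ℤ)) =
          (((∑ c, ind H a b c) ^ 2 : ℕ) : ℤ) := fun a b => by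
        push_cast
        rw [sq, sum_mul_sum]
      simp only [e3]
      have h5 : ((∑ a : Fin n, ∑ b : Fin n, (∑ c, ind H a b c) ^ 2 : ℕ) : ℤ) =
          ((2 * ∑ p ∈ (univ : Finset (Fin n)).powersetCard 2, cod H p ^ 2 : ℕ) : ℤ) := by
        rw [this]
      rw [Nat.cast_sum] at h5
      simp only [Nat.cast_sum (s := univ) (f := fun b => (∑ c, ind H _ b c) ^ 2)] at h5
      rw [Nat.cast_mul] at h5
      exact h5
    rw [← e1, ← e2]
    simp only [gY_eq (ind_pat h3), sum_const, card_univ, Fintype.card_fin, nsmul_eq_mul]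
    simp only [mul_sub, sum_sub_distrib, ← mul_sum, sum_const, card_univ, Fintype.card_fin,
      nsmul_eq_mul]
    ring
  rw [h1, Fintype.card_fin] at hb
  have hn' : (0 : ℝ) < (n : ℝ) ^ 2 := by positivity
  have h2 : ((720 * (68719476736 * ((n : ℤ) ^ 2 * (1032 * ((n : ℤ) * (6 * (H.card : ℤ))) -
        750 * (2 * ((∑ p ∈ (univ : Finset (Fin n)).powersetCard 2, cod H p ^ 2 : ℕ) : ℤ))))) : ℤ) :
        ℝ) ≤ ((16788796141645068 * (n : ℤ) ^ 6 : ℤ) : ℝ) := by
    exact_mod_cast hb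
  push_cast at h2
  set S := ∑ p ∈ (univ : Finset (Fin n)).powersetCard 2, (cod H p : ℝ) ^ 2 with hS
  have h4 : (n : ℝ) ^ 2 * (720 * 68719476736 * (6192 * ((n : ℝ) * H.card) - 1500 * S)) ≤
      (n : ℝ) ^ 2 * (16788796141645068 * (n : ℝ) ^ 4) := by
    calc _ = _ := by ring
      _ ≤ _ := h2
      _ = _ := by ring
  have h5 := le_of_mul_le_mul_left h4 hn'
  have h6 : (0 : ℝ) ≤ (n : ℝ) ^ 4 := by positivity
  nlinarith

end Pool.Agent.W629.Q4
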