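import Pool.Agent.W629.Q4.Fin
import Pool.Agent.W629.Q4.A
import Pool.Agent.W629.Q4.C

/-! The two sharp inequalities given by the certificates. -/

set_option autoImplicit false
open Finset
open scoped Classical

namespace Pool.Agent.W629.Q4
open Pool.Agent.H449R2.Fl

/-- a function on `0, 1, 2, 3` -/
def tb (a b c d k : ℕ) : ℕ := if k = 0 then a else if k = 1 then b else if k = 2 then c else
  if k = 3 then d else 0

variable {n : ℕ} {H : Finset (Finset (Fin n))}

theorem ineqA (h3 : ∀ s ∈ H, s.card = 3)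
    (hK : ∀ S : Finset (Fin n), S.card = 4 → ∃ s ⊆ S, s.card = 3 ∧ s ∉ H) :
    24 * (36 * (N4 H 1 : ℝ) + 450 * N4 H 2 + 675 * N4 H 3) ≤ 500 * (n : ℝ) ^ 4 := by
  have h := quads_bound h3 hK A.g (tb 0 36 450 675) 70368744177664 (720 * 500 * 70368744177664)
    (by decide +kernel) (by exact_mod_cast A.bound (ind_pat h3) (hasK4_false (K4free_sg h3 hK)))
  have h' : ((720 * 70368744177664 * (24 * (0 * N4 H 0 + 36 * N4 H 1 + 450 * N4 H 2 +
      675 * N4 H 3)) : ℕ) : ℝ) ≤ ((720 * 500 * 70368744177664 * n ^ 4 : ℕ) : ℝ) := by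
    exact_mod_cast h
  push_cast at h'
  linarith

theorem ineqC (h3 : ∀ s ∈ H, s.card = 3)
    (hK : ∀ S : Finset (Fin n), S.card = 4 → ∃ s ⊆ S, s.card = 3 ∧ s ∉ H) :
    24 * (405 * (N4 H 0 : ℝ) + 558 * N4 H 1 + 450 * N4 H 2 + 675 * N4 H 3) ≤
      575 * (n : ℝ) ^ 4 := by
  have h := quads_bound h3 hK C.g (tb 405 558 450 675) 70368744177664
    (720 * 575 * 70368744177664)
    (by decide +kernel) (by exact_mod_cast C.bound (ind_pat h3) (hasK4_false (K4free_sg h3 hK)))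
  have h' : ((720 * 70368744177664 * (24 * (405 * N4 H 0 + 558 * N4 H 1 + 450 * N4 H 2 +
      675 * N4 H 3)) : ℕ) : ℝ) ≤ ((720 * 575 * 70368744177664 * n ^ 4 : ℕ) : ℝ) := by
    exact_mod_cast h
  push_cast at h'
  linarith

end Pool.Agent.W629.Q4
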