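import Pool.Agent.H449R2.Fl.Copies

/-! Four-element vertex sets by the number of edges they span. -/

set_option autoImplicit false
set_option maxRecDepth 100000
open Finset
open scoped Classical

namespace Pool.Agent.W629.Q4
open Pool.Agent.H449R2.Fl

/-- number of edges on four vertices -/
def ed4 {V : Type} (e : V → V → V → ℕ) (a b c d : V) : ℕ :=
  e a b c + e a b d + e a c d + e b c d

/-- four-tuples as functions -/
def tupE (V : Type) : (Fin 4 → V) ≃ V × V × V × V where
  toFun f := (f 0, f 1, f 2, f 3)
  invFun t := ![t.1, t.2.1, t.2.2.1, t.2.2.2]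
  left_inv f := by
    funext i
    fin_cases i <;> rfl
  right_inv t := rfl

theorem sum_tup {V : Type} [Fintype V] (F : V → V → V → V → ℕ) :
    ∑ a, ∑ b, ∑ c, ∑ d, F a b c d = ∑ f : Fin 4 → V, F (f 0) (f 1) (f 2) (f 3) := by
  rw [Fintype.sum_equiv (tupE V) (fun f => F (f 0) (f 1) (f 2) (f 3))
    (fun t => F t.1 t.2.1 t.2.2.1 t.2.2.2) (fun f => rfl)]
  rw [Fintype.sum_prod_type]
  refine sum_congr rfl fun a _ => ?_
  rw [Fintype.sum_prod_type]
  refine sum_congr rfl fun b _ => ?_
  rw [Fintype.sum_prod_type]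

/-- number of edges inside the image of an injective four-tuple -/
theorem card_sub4 {V : Type} [DecidableEq V] {H : Finset (Finset V)}
    (h3 : ∀ s ∈ H, s.card = 3) (f : Fin 4 → V) (hf : Function.Injective f) :
    (H.filter fun t => t ⊆ univ.image f).card = ed4 (ind H) (f 0) (f 1) (f 2) (f 3) := by
  have h1 : (H.filter fun t => t ⊆ univ.image f) =
      (powersetCard 3 (univ.map ⟨f, hf⟩)).filter fun t => t ∈ H := by
    ext t
    simp only [mem_filter, mem_powersetCard]
    rw [map_eq_image]
    constructor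
    · rintro ⟨h, h'⟩; exact ⟨⟨h', h3 t h⟩, h⟩
    · rintro ⟨⟨h, _⟩, h'⟩; exact ⟨h', h⟩
  have h2 : (powersetCard 3 (univ : Finset (Fin 4))) =
      {{0, 1, 2}, {0, 1, 3}, {0, 2, 3}, {1, 2, 3}} := by decide
  rw [h1, card_filter, powersetCard_map, sum_map, h2]
  rw [sum_insert (by decide), sum_insert (by decide), sum_insert (by decide), sum_singleton]
  simp only [ed4, ind, RelEmbedding.coe_toEmbedding, mapEmbedding_apply, map_insert,
    map_singleton, Function.Embedding.coeFn_mk]
  ring

/-- the number of edges of `H` contained in `S` -/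
def inside {V : Type} [DecidableEq V] (H : Finset (Finset V)) (S : Finset V) : ℕ :=
  (H.filter fun s => s ⊆ S).card

theorem fiber_card {V : Type} [Fintype V] [DecidableEq V] (S : Finset V) (hS : S.card = 4) :
    24 ≤ (univ.filter fun f : Fin 4 → V => Function.Injective f ∧ univ.image f = S).card := by
  have e0 : Fin 4 ≃ S := (Fintype.equivFinOfCardEq (by simpa using hS)).symm
  have h24 : Fintype.card (Equiv.Perm (Fin 4)) = 24 := by
    rw [Fintype.card_perm, Fintype.card_fin]; rfl
  rw [← h24, ← Finset.card_univ]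
  refine Finset.card_le_card_of_injOn (fun σ i => ((e0 (σ i) : S) : V)) ?_ ?_
  · intro σ _
    simp only [coe_filter, mem_univ, true_and, Set.mem_ofPred_eq]
    constructor
    · intro i j hij
      have h1 := Subtype.ext hij
      exact σ.injective (e0.injective h1)
    · ext v
      simp only [mem_image, mem_univ, true_and]
      constructor
      · rintro ⟨i, rfl⟩
        exact (e0 (σ i)).2
      · intro hv
        refine ⟨σ.symm (e0.symm ⟨v, hv⟩), ?_⟩
        simp
  · intro σ _ τ _ h
    ext i
    have h1 := congrFun h i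
    have h2 := Subtype.ext h1
    exact congrArg Fin.val (e0.injective h2)

/-- a sum over the four-element sets against the sum over all four-tuples -/
theorem sets_le_tuples {V : Type} [Fintype V] [DecidableEq V] {H : Finset (Finset V)}
    (h3 : ∀ s ∈ H, s.card = 3) (F : ℕ → ℕ) :
    24 * ∑ S ∈ (univ : Finset V).powersetCard 4, F (inside H S) ≤
      ∑ a, ∑ b, ∑ c, ∑ d, F (ed4 (ind H) a b c d) := by
  rw [sum_tup fun a b c d => F (ed4 (ind H) a b c d)]
  let I := univ.filter fun f : Fin 4 → V => Function.Injective f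
  have h1 : ∑ f ∈ I, F (ed4 (ind H) (f 0) (f 1) (f 2) (f 3)) ≤
      ∑ f : Fin 4 → V, F (ed4 (ind H) (f 0) (f 1) (f 2) (f 3)) :=
    Finset.sum_le_sum_of_subset (Finset.filter_subset _ _)
  refine le_trans ?_ h1
  have hmap : ∀ f ∈ I, univ.image f ∈ (univ : Finset V).powersetCard 4 := by
    intro f hf
    rw [mem_powersetCard]
    refine ⟨subset_univ _, ?_⟩
    rw [card_image_of_injective _ (mem_filter.mp hf).2, card_univ, Fintype.card_fin]
  rw [← Finset.sum_fiberwise_of_maps_to hmap, mul_sum]
  refine sum_le_sum fun S hS => ?_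
  have hc := fiber_card S (mem_powersetCard.mp hS).2
  have h2 : ∑ f ∈ I.filter (fun f => univ.image f = S), F (ed4 (ind H) (f 0) (f 1) (f 2) (f 3)) =
      ∑ f ∈ I.filter (fun f => univ.image f = S), F (inside H S) := by
    refine sum_congr rfl fun f hf => ?_
    rw [mem_filter] at hf
    obtain ⟨hf1, hf2⟩ := hf
    rw [← card_sub4 h3 f (mem_filter.mp hf1).2, ← hf2]
    unfold inside
    congr 2
  rw [h2, sum_const, smul_eq_mul]
  refine Nat.mul_le_mul_right _ ?_
  have h4 : I.filter (fun f => univ.image f = S) =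
      univ.filter fun f : Fin 4 → V => Function.Injective f ∧ univ.image f = S := by
    rw [Finset.filter_filter]
  rw [h4]
  exact hc

end Pool.Agent.W629.Q4
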